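import Pool.Agent.MP_337c4e_co.Few2

namespace Pool.Agent.Results.MP_337c4e_co.FewBlocks

open Pool.Agent.MP_337c4e_co

/-- The non-symmetric matroidal parameter sets with `lam ≥ 2` and few blocks are those of the
points and hyperplanes of the affine spaces `AG(n, q)`, `n ≥ 3`. -/
theorem result (b v r k lam : ℕ) (hb : v < b) (hl : 2 ≤ lam) (hc : 10 ^ 5 * b ≤ k ^ 2) :
    Matroidal b v r k lam ↔ ∃ q n : ℕ, IsPrimePow q ∧ 3 ≤ n ∧ v = q ^ n ∧ k = q ^ (n - 1) ∧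
      r = ∑ i ∈ Finset.range n, q ^ i ∧ lam = ∑ i ∈ Finset.range (n - 1), q ^ i ∧ b = q * r := by
  constructor
  · intro h
    obtain ⟨α, _, _, R, hR⟩ := h.exists_des
    obtain ⟨q, j, h1, h2⟩ := hR.few_blocks hb hl (Or.inl hc)
    exact ⟨q, j + 3, h1, by omega, h2⟩
  · rintro ⟨q, n, h1, h2, rfl, rfl, rfl, rfl, rfl⟩
    obtain ⟨j, rfl⟩ : ∃ j, n = j + 2 := ⟨n - 2, by omega⟩
    exact matroidal_ag_primePow q j h1

end Pool.Agent.Results.MP_337c4e_co.FewBlocks
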