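import Pool.Agent.MP_337c4e_co.Quad

namespace Pool.Agent.Results.MP_337c4e_co.FiniteCoSize

open Pool.Agent.MP_337c4e_co

/-- A non-symmetric matroidal parameter set that is not the parameter set of a complete design has
`v` bounded by a quadratic function of `c = v - k`. -/
theorem result (b v r k lam c : ℕ) (hb : v < b) (hc : v = k + c) (h : Matroidal b v r k lam)
    (hk : b ≠ v.choose k) : 2 * v + 13 * c ≤ 5 * c ^ 2 + 8 := by
  obtain ⟨α, _, _, R, hR⟩ := h.exists_des
  have h1 := hR.bound_quad hb hc hk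
  have h2 := hR.k_lt hb
  obtain ⟨e, rfl⟩ : ∃ e, c = e + 2 := ⟨c - 2, by omega⟩
  rw [show e + 2 - 1 = e + 1 by omega, show 5 * (e + 2) - 8 = 5 * e + 2 by omega] at h1
  nlinarith

end Pool.Agent.Results.MP_337c4e_co.FiniteCoSize
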