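import Pool.Agent.MP_337c4e_co.Mg.H33_RepD

namespace Pool.Agent.Results.MP_337c4e_co.FiniteFieldRep

open Pool.Agent.MP_337c4e_co

/-- Over a finite field `F`, the large non-symmetric parameter sets of `F`-representable matroid
designs are those of the affine spaces over the subfields of `F` and of the complete designs with
`k = v - 2`. -/
theorem result (F : Type) [Field F] [Finite F] : ∃ v0 : ℕ, ∀ b v r k lam : ℕ, v0 ≤ v → v < b →
    (MatroidalOver F b v r k lam ↔
      (∃ (K : Subfield F) (n : ℕ), 2 ≤ n ∧ v = Nat.card K ^ n ∧ k = Nat.card K ^ (n - 1) ∧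
        r = ∑ i ∈ Finset.range n, Nat.card K ^ i ∧
        lam = ∑ i ∈ Finset.range (n - 1), Nat.card K ^ i ∧ b = Nat.card K * r) ∨
      (k + 2 = v ∧ b = v.choose 2 ∧ r = (v - 1).choose 2 ∧ lam = (v - 2).choose 2)) :=
  H33.main F

end Pool.Agent.Results.MP_337c4e_co.FiniteFieldRep
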