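import Pool.Agent.MP_337c4e_co.Except
import Pool.Agent.MP_337c4e_co.ExA
import Pool.Agent.MP_337c4e_co.ExB
import Pool.Agent.MP_337c4e_co.ExC
import Pool.Agent.MP_337c4e_co.Affine

namespace Pool.Agent.Results.MP_337c4e_co.SmallLambda

open Pool.Agent.MP_337c4e_co

/-- The non-symmetric matroidal parameter sets with `3 ≤ lam ≤ 9`. -/
theorem result (b v r k lam : ℕ) (hb : v < b) (h3 : 3 ≤ lam) (h9 : lam ≤ 9) :
    Matroidal b v r k lam ↔ (b, v, r, k, lam) ∈
      [(10, 5, 6, 3, 3), (14, 8, 7, 4, 3),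
       (20, 6, 10, 3, 4), (30, 10, 12, 4, 4), (39, 27, 13, 9, 4),
       (35, 7, 15, 3, 5), (68, 17, 20, 5, 5), (77, 22, 21, 6, 5), (84, 64, 21, 16, 5),
       (15, 6, 10, 4, 6), (56, 8, 21, 3, 6), (91, 14, 26, 4, 6), (130, 26, 30, 6, 6),
       (155, 125, 31, 25, 6),
       (30, 16, 15, 8, 7), (84, 9, 28, 3, 7), (140, 16, 35, 4, 7), (155, 31, 35, 7, 7),
       (120, 10, 36, 3, 8), (260, 26, 50, 5, 8), (350, 50, 56, 8, 8), (399, 343, 57, 49, 8),
       (165, 11, 45, 3, 9), (285, 20, 57, 4, 9), (520, 65, 72, 9, 9), (584, 512, 73, 64, 9)] := by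
  constructor
  · intro h
    obtain ⟨α, _, _, R, hR⟩ := h.exists_des
    exact hR.mem_smallList hb h3 h9
  · intro h
    have a3 := matroidal_affine_primePow 3 Nat.prime_three.isPrimePow
    have a4 := matroidal_affine_primePow (2 ^ 2) (Nat.prime_two.isPrimePow.pow (by norm_num))
    have a5 := matroidal_affine_primePow 5 Nat.prime_five.isPrimePow
    have a7 := matroidal_affine_primePow 7 (by norm_num : Nat.Prime 7).isPrimePow
    have a8 := matroidal_affine_primePow (2 ^ 3) (Nat.prime_two.isPrimePow.pow (by norm_num))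
    norm_num at a3 a4 a5 a7 a8
    simp only [List.mem_cons, Prod.mk.injEq, List.not_mem_nil, or_false] at h
    rcases h with h | h | h | h | h | h | h | h | h | h | h | h | h | h | h | h | h | h | h | h |
      h | h | h | h | h | h <;> obtain ⟨rfl, rfl, rfl, rfl, rfl⟩ := h
    exacts [mat_10_5, mat_14_8, mat_20_6, mat_30_10, a3, mat_35_7, mat_68_17, mat_77_22, a4,
      mat_15_6, mat_56_8, mat_91_14, mat_130_26, a5, mat_30_16, mat_84_9, mat_140_16, mat_155_31,
      mat_120_10, mat_260_26, mat_350_50, a7, mat_165_11, mat_285_20, mat_520_65, a8]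

end Pool.Agent.Results.MP_337c4e_co.SmallLambda
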